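import Mathlib

set_option autoImplicit false

open Finset

namespace Q137.Tang

/-- the function which is `0` left of `0`, `1` right of `1` and `y` in between -/
noncomputable def cl (y : ℝ) : ℝ := max 0 (min 1 y)

/-- the interpolation of the heights `h 0, ..., h T` at the times `0, ..., T` -/
noncomputable def pl (T : ℕ) (h : ℕ → ℝ) (x : ℝ) : ℝ :=
  h 0 + ∑ t ∈ range T, (h (t + 1) - h t) * cl (x - t)

lemma continuous_cl : Continuous cl := by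
  unfold cl
  fun_prop

lemma continuous_pl (T : ℕ) (h : ℕ → ℝ) : Continuous (pl T h) := by
  unfold pl
  refine continuous_const.add (continuous_finsetSum _ fun t _ => ?_)
  exact continuous_const.mul (continuous_cl.comp (by fun_prop))

lemma cl_one {y : ℝ} (hy : 1 ≤ y) : cl y = 1 := by
  unfold cl
  rw [min_eq_left hy, max_eq_right (by norm_num)]

lemma cl_zero {y : ℝ} (hy : y ≤ 0) : cl y = 0 := by
  unfold cl
  rw [min_eq_right (by linarith), max_eq_left hy]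

lemma cl_mid {y : ℝ} (h0 : 0 ≤ y) (h1 : y ≤ 1) : cl y = y := by
  unfold cl
  rw [min_eq_right h1, max_eq_right h0]

lemma pl_succ (T : ℕ) (h : ℕ → ℝ) (x : ℝ) :
    pl (T + 1) h x = pl T h x + (h (T + 1) - h T) * cl (x - T) := by
  unfold pl
  rw [sum_range_succ, add_assoc]

lemma pl_right (T : ℕ) (h : ℕ → ℝ) {x : ℝ} (hx : (T : ℝ) ≤ x) : pl T h x = h T := by
  induction T with
  | zero => simp [pl]
  | succ T ih =>
    push_cast at hx
    rw [pl_succ, ih (by linarith), cl_one (by linarith)]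
    ring

lemma pl_left (T : ℕ) (h : ℕ → ℝ) {x : ℝ} (hx : x ≤ 0) : pl T h x = h 0 := by
  induction T with
  | zero => simp [pl]
  | succ T ih =>
    rw [pl_succ, ih, cl_zero (by have : (0 : ℝ) ≤ T := Nat.cast_nonneg T; linarith)]
    ring

lemma pl_stable {T t : ℕ} (ht : t + 1 ≤ T) (h : ℕ → ℝ) {x : ℝ} (hx : x ≤ t + 1) :
    pl T h x = pl (t + 1) h x := by
  induction T, ht using Nat.le_induction with
  | base => rfl
  | succ T hT ih =>
    rw [pl_succ, ih, cl_zero]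
    · ring
    · have : ((t + 1 : ℕ) : ℝ) ≤ T := by exact_mod_cast hT
      push_cast at this
      linarith

lemma pl_seg {T t : ℕ} (ht : t < T) (h : ℕ → ℝ) {x : ℝ} (h0 : (t : ℝ) ≤ x) (h1 : x ≤ t + 1) :
    pl T h x = (1 - (x - t)) * h t + (x - t) * h (t + 1) := by
  rw [pl_stable ht h h1, pl_succ, pl_right t h h0, cl_mid (by linarith) (by linarith)]
  ring

lemma pl_nat {T t : ℕ} (ht : t ≤ T) (h : ℕ → ℝ) : pl T h t = h t := by
  rcases ht.lt_or_eq with h1 | h1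
  · rw [pl_seg h1 h le_rfl (by linarith)]
    ring
  · subst h1
    exact pl_right _ h le_rfl

lemma pl_sub (T : ℕ) (h h' : ℕ → ℝ) (x : ℝ) :
    pl T h x - pl T h' x = pl T (fun t => h t - h' t) x := by
  unfold pl
  rw [add_sub_add_comm, ← sum_sub_distrib]
  congr 1
  apply sum_congr rfl
  intro t _
  ring

/-- the segment of a zero -/
lemma zero_floor {T : ℕ} {D : ℕ → ℝ} (hD : ∀ t ≤ T, D t ≠ 0) {x : ℝ} (hx : pl T D x = 0) :
    0 < x ∧ ⌊x⌋₊ < T ∧ 0 < x - ⌊x⌋₊ ∧ x - ⌊x⌋₊ < 1 ∧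
      (1 - (x - ⌊x⌋₊)) * D ⌊x⌋₊ + (x - ⌊x⌋₊) * D (⌊x⌋₊ + 1) = 0 := by
  have h0 : 0 < x := by
    by_contra h
    push Not at h
    rw [pl_left T D h] at hx
    exact hD 0 (Nat.zero_le _) hx
  have hT : x < T := by
    by_contra h
    push Not at h
    rw [pl_right T D h] at hx
    exact hD T le_rfl hx
  have hfl : ⌊x⌋₊ < T := (Nat.floor_lt h0.le).2 hT
  have h1 : (⌊x⌋₊ : ℝ) ≤ x := Nat.floor_le h0.le
  have h2 : x < ⌊x⌋₊ + 1 := Nat.lt_floor_add_one x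
  have h3 := pl_seg hfl D h1 h2.le
  rw [hx] at h3
  refine ⟨h0, hfl, ?_, by linarith, h3.symm⟩
  rcases (sub_nonneg.2 h1).lt_or_eq with h4 | h4
  · exact h4
  · exfalso
    rw [← h4] at h3
    apply hD ⌊x⌋₊ hfl.le
    linarith

lemma zeros_finite_card {T : ℕ} {D : ℕ → ℝ} (hD : ∀ t ≤ T, D t ≠ 0) :
    {x : ℝ | pl T D x = 0}.Finite ∧
      {x : ℝ | pl T D x = 0}.ncard ≤
        ((range T).filter fun t => ¬ (0 < D t ↔ 0 < D (t + 1))).card := by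
  classical
  have hmaps : Set.MapsTo (fun x : ℝ => ⌊x⌋₊) {x : ℝ | pl T D x = 0}
      (((range T).filter fun t => ¬ (0 < D t ↔ 0 < D (t + 1)) : Finset ℕ) : Set ℕ) := by
    intro x hx
    obtain ⟨h0, h1, h2, h3, h4⟩ := zero_floor hD hx
    simp only [coe_filter, mem_range, Set.mem_ofPred_eq]
    refine ⟨h1, ?_⟩
    intro hiff
    by_cases hp : 0 < D ⌊x⌋₊
    · have hq := hiff.1 hp
      have : 0 < (1 - (x - ⌊x⌋₊)) * D ⌊x⌋₊ + (x - ⌊x⌋₊) * D (⌊x⌋₊ + 1) := by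
        have h5 : 0 < 1 - (x - ⌊x⌋₊) := by linarith
        positivity
      linarith
    · have hq : ¬ 0 < D (⌊x⌋₊ + 1) := fun h => hp (hiff.2 h)
      have hp' : D ⌊x⌋₊ < 0 := lt_of_le_of_ne (not_lt.1 hp) (hD _ h1.le)
      have hq' : D (⌊x⌋₊ + 1) ≤ 0 := not_lt.1 hq
      have h5 : 0 < 1 - (x - ⌊x⌋₊) := by linarith
      have h6 : (1 - (x - ⌊x⌋₊)) * D ⌊x⌋₊ < 0 := mul_neg_of_pos_of_neg h5 hp'
      have h7 : (x - ⌊x⌋₊) * D (⌊x⌋₊ + 1) ≤ 0 := mul_nonpos_of_nonneg_of_nonpos h2.le hq'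
      linarith
  have hinj : Set.InjOn (fun x : ℝ => ⌊x⌋₊) {x : ℝ | pl T D x = 0} := by
    intro x hx y hy hxy
    obtain ⟨h0, h1, h2, h3, h4⟩ := zero_floor hD hx
    obtain ⟨k0, k1, k2, k3, k4⟩ := zero_floor hD hy
    simp only at hxy
    rw [← hxy] at k2 k3 k4
    have hne : D (⌊x⌋₊ + 1) - D ⌊x⌋₊ ≠ 0 := by
      intro h
      have h5 : D (⌊x⌋₊ + 1) = D ⌊x⌋₊ := by linarith
      rw [h5] at h4
      apply hD _ h1.le
      linarith
    have h6 : (x - y) * (D (⌊x⌋₊ + 1) - D ⌊x⌋₊) = 0 := by linarith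
    rcases mul_eq_zero.1 h6 with h7 | h7
    · linarith
    · exact absurd h7 hne
  refine ⟨Set.Finite.of_injOn hmaps hinj (Finset.finite_toSet _), ?_⟩
  have := Set.ncard_le_ncard_of_injOn _ hmaps hinj (Finset.finite_toSet _)
  rwa [Set.ncard_coe_finset] at this

lemma exists_zero {T : ℕ} {D : ℕ → ℝ} {t₁ t₂ : ℕ} (h1 : t₁ ≤ T) (h2 : t₂ ≤ T)
    (hp : 0 < D t₁) (hn : D t₂ < 0) : ∃ x, pl T D x = 0 := by
  have ha : pl T D t₂ ≤ 0 := by rw [pl_nat h2]; exact hn.le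
  have hb : 0 ≤ pl T D t₁ := by rw [pl_nat h1]; exact hp.le
  have := mem_range_of_exists_le_of_exists_ge (continuous_pl T D) ⟨_, ha⟩ ⟨_, hb⟩
  exact this

lemma touch {T t₀ : ℕ} {D : ℕ → ℝ} (h0 : 0 < t₀) (hT : t₀ < T) (hz : D t₀ = 0)
    (hp : ∀ t ≤ T, t ≠ t₀ → 0 < D t) :
    pl T D t₀ = 0 ∧ ∀ x : ℝ, x ≠ t₀ → 0 < pl T D x := by
  have hnn : ∀ t ≤ T, 0 ≤ D t := by
    intro t ht
    by_cases h : t = t₀
    · rw [h, hz]
    · exact (hp t ht h).le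
  refine ⟨by rw [pl_nat hT.le, hz], ?_⟩
  intro x hx
  rcases le_or_gt x 0 with h1 | h1
  · rw [pl_left T D h1]
    exact hp 0 (Nat.zero_le _) (by omega)
  rcases le_or_gt (T : ℝ) x with h2 | h2
  · rw [pl_right T D h2]
    exact hp T le_rfl (by omega)
  have hfl : ⌊x⌋₊ < T := (Nat.floor_lt h1.le).2 h2
  have h3 : (⌊x⌋₊ : ℝ) ≤ x := Nat.floor_le h1.le
  have h4 : x < ⌊x⌋₊ + 1 := Nat.lt_floor_add_one x
  rw [pl_seg hfl D h3 h4.le]
  have h5 : 0 < 1 - (x - ⌊x⌋₊) := by linarith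
  by_cases h6 : ⌊x⌋₊ = t₀
  · have h7 : 0 < x - ⌊x⌋₊ := by
      rcases (sub_nonneg.2 h3).lt_or_eq with h8 | h8
      · exact h8
      · exfalso
        apply hx
        rw [← h6]
        linarith
    have h8 : 0 < D (⌊x⌋₊ + 1) := hp _ hfl (by omega)
    rw [show D ⌊x⌋₊ = 0 by rw [h6, hz]]
    have := mul_pos h7 h8
    linarith
  · have h8 : 0 < D ⌊x⌋₊ := hp _ hfl.le h6
    have h9 : 0 ≤ D (⌊x⌋₊ + 1) := hnn _ hfl
    have h10 : 0 ≤ x - ⌊x⌋₊ := by linarith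
    have := mul_pos h5 h8
    have := mul_nonneg h10 h9
    linarith

/-- no three points on a line of negative slope -/
lemma no_three_aux {N : ℕ} {α β y : ℝ} (hα : 0 < α) (hβ : 0 < β) {x₁ x₂ x₃ p₁ p₂ p₃ : ℕ}
    (h2N : x₂ < N) (h12 : p₁ < p₂) (h23 : p₂ < p₃)
    (e1 : α * x₁ + β * ((N + 1 : ℕ) : ℝ) ^ p₁ = y)
    (e2 : α * x₂ + β * ((N + 1 : ℕ) : ℝ) ^ p₂ = y)
    (e3 : α * x₃ + β * ((N + 1 : ℕ) : ℝ) ^ p₃ = y) : False := by
  set B : ℝ := ((N + 1 : ℕ) : ℝ) with hB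
  have hB1 : B = N + 1 := by rw [hB]; push_cast; ring
  have hN0 : (1 : ℝ) ≤ N := by
    have : 1 ≤ N := by omega
    exact_mod_cast this
  have hBgt : 1 < B := by linarith
  have hp1 : 0 < B ^ p₁ := by positivity
  have hp2 : 0 < B ^ p₂ := by positivity
  have h12' : B ^ p₁ < B ^ p₂ := pow_lt_pow_right₀ hBgt h12
  have h23' : B ^ p₂ * B ≤ B ^ p₃ := by
    rw [← pow_succ]
    exact pow_le_pow_right₀ hBgt.le h23
  -- x₁ > x₂
  have hx12 : (x₂ : ℝ) < x₁ := by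
    by_contra h
    push Not at h
    have := mul_le_mul_of_nonneg_left h hα.le
    have := mul_lt_mul_of_pos_left h12' hβ
    linarith
  have hx12' : (x₂ : ℝ) + 1 ≤ x₁ := by
    have : x₂ < x₁ := by exact_mod_cast hx12
    exact_mod_cast this
  have hαlt : α < β * B ^ p₂ := by
    have h3 : α * (x₁ - x₂) = β * B ^ p₂ - β * B ^ p₁ := by linarith
    have h4 : α * 1 ≤ α * (x₁ - x₂) := mul_le_mul_of_nonneg_left (by linarith) hα.le
    have := mul_pos hβ hp1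
    linarith
  have h5 : α * (x₂ - x₃) = β * B ^ p₃ - β * B ^ p₂ := by linarith
  have h6 : β * (B ^ p₂ * B) ≤ β * B ^ p₃ := mul_le_mul_of_nonneg_left h23' hβ.le
  have h7 : β * B ^ p₂ * N ≤ α * (x₂ - x₃) := by
    rw [h5]
    have : β * (B ^ p₂ * B) = β * B ^ p₂ * N + β * B ^ p₂ := by rw [hB1]; ring
    linarith
  have h8 : α * ((x₂ : ℝ) - x₃) ≤ α * N := by
    apply mul_le_mul_of_nonneg_left _ hα.le
    have : (x₂ : ℝ) < N := by exact_mod_cast h2N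
    have : (0 : ℝ) ≤ x₃ := Nat.cast_nonneg _
    linarith
  have h9 : α * N < β * B ^ p₂ * N := mul_lt_mul_of_pos_right hαlt (by linarith)
  linarith

lemma no_three {N : ℕ} {α β y : ℝ} (hα : 0 < α) (hβ : 0 < β) {x₁ x₂ x₃ p₁ p₂ p₃ : ℕ}
    (h1N : x₁ < N) (h2N : x₂ < N) (h3N : x₃ < N) (h12 : p₁ ≠ p₂) (h23 : p₂ ≠ p₃) (h13 : p₁ ≠ p₃)
    (e1 : α * x₁ + β * ((N + 1 : ℕ) : ℝ) ^ p₁ = y)
    (e2 : α * x₂ + β * ((N + 1 : ℕ) : ℝ) ^ p₂ = y)
    (e3 : α * x₃ + β * ((N + 1 : ℕ) : ℝ) ^ p₃ = y) : False := by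
  rcases lt_or_gt_of_ne h12 with a | a <;> rcases lt_or_gt_of_ne h23 with b | b <;>
    rcases lt_or_gt_of_ne h13 with c | c
  · exact no_three_aux hα hβ h2N a b e1 e2 e3
  · omega
  · exact no_three_aux hα hβ h3N c b e1 e3 e2
  · exact no_three_aux hα hβ h1N c a e3 e1 e2
  · exact no_three_aux hα hβ h1N a c e2 e1 e3
  · exact no_three_aux hα hβ h3N b c e2 e3 e1
  · omega
  · exact no_three_aux hα hβ h2N b a e3 e2 e1

end Q137.Tang
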