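import Mathlib

set_option autoImplicit false

open Finset

namespace Q137.Tang

/-- the weight exponent of coordinate `e` in phase `j` -/
def ex (j e : ℕ) : ℕ := if j < e then e else j - e

lemma ex_inj (j : ℕ) : Function.Injective (ex j) := by
  intro a b h
  unfold ex at h
  split_ifs at h <;> omega

/-- the number with digits `x` in phase `j` -/
def val (Q : ℕ) {M : ℕ} (j : ℕ) (x : Fin M → ℕ) : ℕ := ∑ e, x e * Q ^ ex j e

lemma geom (Q k : ℕ) (hQ : 1 ≤ Q) : ∑ i ∈ range k, (Q - 1) * Q ^ i + 1 = Q ^ k := by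
  induction k with
  | zero => simp
  | succ k ih =>
    rw [sum_range_succ, add_right_comm, ih, pow_succ]
    obtain ⟨q, rfl⟩ : ∃ q, Q = q + 1 := ⟨Q - 1, by omega⟩
    simp only [Nat.add_sub_cancel]
    ring

lemma sum_low {Q M : ℕ} (hQ : 1 ≤ Q) (S : Finset (Fin M)) (j : ℕ) (x : Fin M → ℕ)
    (hx : ∀ e, x e < Q) (k : ℕ) (hk : ∀ e ∈ S, ex j e < k) :
    ∑ e ∈ S, x e * Q ^ ex j e < Q ^ k := by
  have h1 : ∑ e ∈ S, x e * Q ^ ex j e ≤ ∑ e ∈ S, (Q - 1) * Q ^ ex j e := by
    apply sum_le_sum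
    intro e _
    apply Nat.mul_le_mul_right
    have := hx e
    omega
  have hinj : Set.InjOn (fun e : Fin M => ex j e) S := by
    intro a _ b _ hab
    exact Fin.ext (ex_inj j hab)
  have h2 : ∑ e ∈ S, (Q - 1) * Q ^ ex j e = ∑ i ∈ S.image (fun e : Fin M => ex j e),
      (Q - 1) * Q ^ i := by
    rw [sum_image hinj]
  have h3 : ∑ i ∈ S.image (fun e : Fin M => ex j e), (Q - 1) * Q ^ i ≤
      ∑ i ∈ range k, (Q - 1) * Q ^ i := by
    apply sum_le_sum_of_subset
    intro i hi
    obtain ⟨e, he, rfl⟩ := mem_image.1 hi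
    exact mem_range.2 (hk e he)
  have h4 := geom Q k hQ
  omega

lemma val_lt_pow {Q M : ℕ} (hQ : 1 ≤ Q) (j : ℕ) (x : Fin M → ℕ) (hx : ∀ e, x e < Q) (k : ℕ)
    (hk : ∀ e : Fin M, ex j e < k) : val Q j x < Q ^ k :=
  sum_low hQ univ j x hx k fun e _ => hk e

lemma val_lt {Q M : ℕ} (hQ : 1 ≤ Q) (j : ℕ) {x y : Fin M → ℕ} (hx : ∀ e, x e < Q) {e₀ : Fin M}
    (h : x e₀ < y e₀) (heq : ∀ e : Fin M, ex j e₀ < ex j e → x e = y e) :
    val Q j x < val Q j y := by
  classical
  unfold val
  rw [← sum_filter_add_sum_filter_not univ (fun e : Fin M => ex j e₀ < ex j e)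
    (fun e => x e * Q ^ ex j e),
    ← sum_filter_add_sum_filter_not univ (fun e : Fin M => ex j e₀ < ex j e)
    (fun e => y e * Q ^ ex j e)]
  have h1 : ∑ e ∈ univ.filter (fun e : Fin M => ex j e₀ < ex j e), x e * Q ^ ex j e =
      ∑ e ∈ univ.filter (fun e : Fin M => ex j e₀ < ex j e), y e * Q ^ ex j e := by
    apply sum_congr rfl
    intro e he
    rw [heq e (mem_filter.1 he).2]
  rw [h1]
  apply Nat.add_lt_add_left
  have hmem : e₀ ∈ univ.filter (fun e : Fin M => ¬ ex j e₀ < ex j e) := by simp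
  have h2 : y e₀ * Q ^ ex j e₀ ≤
      ∑ e ∈ univ.filter (fun e : Fin M => ¬ ex j e₀ < ex j e), y e * Q ^ ex j e :=
    single_le_sum (f := fun e : Fin M => y e * Q ^ ex j e) (fun e _ => Nat.zero_le _) hmem
  refine lt_of_lt_of_le ?_ h2
  rw [← add_sum_erase _ _ hmem]
  have h3 : ∑ e ∈ (univ.filter (fun e : Fin M => ¬ ex j e₀ < ex j e)).erase e₀,
      x e * Q ^ ex j e < Q ^ ex j e₀ := by
    apply sum_low hQ _ j x hx
    intro e he
    have h4 := ne_of_mem_erase he
    have h5 := (mem_filter.1 (mem_of_mem_erase he)).2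
    rcases lt_trichotomy (ex j e) (ex j e₀) with h6 | h6 | h6
    · exact h6
    · exact absurd (Fin.ext (ex_inj j h6)) h4
    · exact absurd h6 h5
  have h4 : (x e₀ + 1) * Q ^ ex j e₀ ≤ y e₀ * Q ^ ex j e₀ := Nat.mul_le_mul_right _ h
  have h5 : (x e₀ + 1) * Q ^ ex j e₀ = x e₀ * Q ^ ex j e₀ + Q ^ ex j e₀ := by ring
  omega

lemma val_dec {Q M : ℕ} (hQ : 1 ≤ Q) (j : ℕ) {x y : Fin M → ℕ} (hx : ∀ e, x e < Q)
    (hy : ∀ e, y e < Q) {e₀ : Fin M}
    (h : x e₀ ≠ y e₀) (heq : ∀ e : Fin M, ex j e₀ < ex j e → x e = y e) :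
    val Q j x ≠ val Q j y ∧ (val Q j x < val Q j y ↔ x e₀ < y e₀) := by
  rcases lt_or_gt_of_ne h with h1 | h1
  · have := val_lt hQ j hx h1 heq
    exact ⟨this.ne, fun _ => h1, fun _ => this⟩
  · have := val_lt hQ j hy h1 (fun e he => (heq e he).symm)
    exact ⟨this.ne', fun h2 => absurd h2 (not_lt.2 this.le), fun h2 => absurd h2 (not_lt.2 h1.le)⟩

/-- the digit of the value `x` at coordinate `e`, in block `b` at time `τ` -/
def dig (s : ℕ) (b : Bool) (τ e x : ℕ) : ℕ :=
  if decide (e * s + x ≤ τ) = b then s + x else s - 1 - x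

lemma dig_lt {s : ℕ} {b : Bool} {τ e x : ℕ} (hx : x < s) : dig s b τ e x < 2 * s := by
  unfold dig
  split_ifs <;> omega

lemma dig_lt_iff {s : ℕ} {b : Bool} {τ e x y : ℕ} (hxy : x < y) (hy : y < s) :
    dig s b τ e x < dig s b τ e y ↔ decide (e * s + y ≤ τ) = b := by
  unfold dig
  cases b
  · simp only [decide_eq_false_iff_not]
    split_ifs <;> constructor <;> intro h <;> omega
  · simp only [decide_eq_true_eq]
    split_ifs <;> constructor <;> intro h <;> omega

lemma dig_ne {s : ℕ} {b : Bool} {τ e x y : ℕ} (hxy : x ≠ y) (hx : x < s) (hy : y < s) :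
    dig s b τ e x ≠ dig s b τ e y := by
  unfold dig
  split_ifs <;> omega

/-- later coordinates are not yet flipped -/
lemma dig_hi {s : ℕ} (hs : 0 < s) {b : Bool} {τ e x y : ℕ} (h : τ / s < e) (hxy : x ≠ y)
    (hx : x < s) (hy : y < s) : (dig s b τ e x < dig s b τ e y ↔ (b = true ↔ y < x)) := by
  have h1 : τ < e * s := (Nat.div_lt_iff_lt_mul hs).1 h
  rcases lt_or_gt_of_ne hxy with h2 | h2
  · rw [dig_lt_iff h2 hy]
    have : decide (e * s + y ≤ τ) = false := by
      rw [decide_eq_false_iff_not]; omega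
    rw [this]
    cases b <;> simp <;> omega
  · have h3 : dig s b τ e x < dig s b τ e y ↔ ¬ (dig s b τ e y < dig s b τ e x) := by
      have := dig_ne (b := b) (τ := τ) (e := e) hxy hx hy
      omega
    rw [h3, dig_lt_iff h2 hx]
    have : decide (e * s + x ≤ τ) = false := by
      rw [decide_eq_false_iff_not]; omega
    rw [this]
    cases b <;> simp <;> omega

/-- earlier coordinates are flipped -/
lemma dig_lo {s : ℕ} (hs : 0 < s) {b : Bool} {τ e x y : ℕ} (h : e < τ / s) (hxy : x ≠ y)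
    (hx : x < s) (hy : y < s) : (dig s b τ e x < dig s b τ e y ↔ (b = true ↔ x < y)) := by
  have h1 : (e + 1) * s ≤ τ := (Nat.le_div_iff_mul_le hs).1 h
  have h1' : e * s + s ≤ τ := by rwa [Nat.succ_mul] at h1
  rcases lt_or_gt_of_ne hxy with h2 | h2
  · rw [dig_lt_iff h2 hy]
    have : decide (e * s + y ≤ τ) = true := by
      rw [decide_eq_true_eq]; omega
    rw [this]
    cases b <;> simp <;> omega
  · have h3 : dig s b τ e x < dig s b τ e y ↔ ¬ (dig s b τ e y < dig s b τ e x) := by
      have := dig_ne (b := b) (τ := τ) (e := e) hxy hx hy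
      omega
    rw [h3, dig_lt_iff h2 hx]
    have : decide (e * s + x ≤ τ) = true := by
      rw [decide_eq_true_eq]; omega
    rw [this]
    cases b <;> simp <;> omega

/-- in the phase of `d` the order of things off `d` depends only on the block -/
lemma phase_dec {s M : ℕ} (hs : 0 < s) (d : Fin M) (w w' : Fin M → ℕ) (hw : ∀ e, w e < s)
    (hw' : ∀ e, w' e < s) (h : ∃ e, e ≠ d ∧ w e ≠ w' e) :
    ∃ S : Prop, ∀ (b : Bool) (τ : ℕ), τ / s = d → ∀ x y : Fin M → ℕ,
      (∀ e, x e < 2 * s) → (∀ e, y e < 2 * s) →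
      (∀ e, e ≠ d → x e = dig s b τ e (w e)) → (∀ e, e ≠ d → y e = dig s b τ e (w' e)) →
      val (2 * s) (τ / s) x ≠ val (2 * s) (τ / s) y ∧
        (val (2 * s) (τ / s) x < val (2 * s) (τ / s) y ↔ (b = true ↔ S)) := by
  classical
  by_cases h1 : ∃ e, d < e ∧ w e ≠ w' e
  · obtain ⟨E, hE, hmax⟩ := exists_max_image (univ.filter fun e => d < e ∧ w e ≠ w' e) id
      (by obtain ⟨e, he⟩ := h1; exact ⟨e, by simpa using he⟩)
    have hE' := (mem_filter.1 hE).2
    refine ⟨w' E < w E, ?_⟩
    intro b τ hτ x y hx hy hxw hyw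
    have hEd : E ≠ d := hE'.1.ne'
    have hlt : τ / s < E := by rw [hτ]; exact hE'.1
    obtain ⟨a1, a2⟩ := val_dec (by omega) (τ / s) hx hy (e₀ := E)
      (by rw [hxw E hEd, hyw E hEd]; exact dig_ne hE'.2 (hw E) (hw' E))
      (by
        intro e he
        unfold ex at he
        rw [if_pos hlt] at he
        split_ifs at he with hc
        · have hed : d < e := by rw [hτ] at hc; exact hc
          have : w e = w' e := by
            by_contra hne
            have h4 := hmax e (by simp only [mem_filter, mem_univ, true_and]; exact ⟨hed, hne⟩)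
            simp only [id] at h4
            exact absurd h4 (not_le.2 he)
          rw [hxw e hed.ne', hyw e hed.ne', this]
        · omega)
    refine ⟨a1, ?_⟩
    rw [a2, hxw E hEd, hyw E hEd, dig_hi hs hlt hE'.2 (hw E) (hw' E)]
  · push Not at h1
    obtain ⟨E, hE, hmin⟩ := exists_min_image (univ.filter fun e => e ≠ d ∧ w e ≠ w' e) id
      (by obtain ⟨e, he⟩ := h; exact ⟨e, by simpa using he⟩)
    have hE' := (mem_filter.1 hE).2
    have hEd : E ≠ d := hE'.1
    have hEltd : E < d := by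
      rcases lt_or_gt_of_ne hEd with h2 | h2
      · exact h2
      · exact absurd (h1 E h2) hE'.2
    refine ⟨w E < w' E, ?_⟩
    intro b τ hτ x y hx hy hxw hyw
    have hlt : (E : ℕ) < τ / s := by rw [hτ]; exact hEltd
    obtain ⟨a1, a2⟩ := val_dec (by omega) (τ / s) hx hy (e₀ := E)
      (by rw [hxw E hEd, hyw E hEd]; exact dig_ne hE'.2 (hw E) (hw' E))
      (by
        intro e he
        unfold ex at he
        rw [if_neg (by omega)] at he
        split_ifs at he with hc
        · have hed : d < e := by rw [hτ] at hc; exact hc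
          rw [hxw e hed.ne', hyw e hed.ne', h1 e hed]
        · have heE : e < E := by
            rw [Fin.lt_def]
            omega
          have hed : e ≠ d := (heE.trans hEltd).ne
          have : w e = w' e := by
            by_contra hne
            have h4 := hmin e (by simp only [mem_filter, mem_univ, true_and]; exact ⟨hed, hne⟩)
            simp only [id] at h4
            exact absurd h4 (not_le.2 heE)
          rw [hxw e hed, hyw e hed, this])
    refine ⟨a1, ?_⟩
    rw [a2, hxw E hEd, hyw E hEd, dig_lo hs hlt hE'.2 (hw E) (hw' E)]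

/-- two points which differ in one coordinate only -/
lemma pp_one {s M : ℕ} (hs : 0 < s) (N : Fin M) (u v : Fin M → ℕ) (hu : ∀ e, u e < s)
    (hv : ∀ e, v e < s) (h : u N < v N) (heq : ∀ e, e ≠ N → u e = v e) (b : Bool) (τ : ℕ) :
    val (2 * s) (τ / s) (fun e => dig s b τ e (u e)) ≠
        val (2 * s) (τ / s) (fun e => dig s b τ e (v e)) ∧
      (val (2 * s) (τ / s) (fun e => dig s b τ e (u e)) <
        val (2 * s) (τ / s) (fun e => dig s b τ e (v e)) ↔ decide (N * s + v N ≤ τ) = b) := by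
  obtain ⟨a1, a2⟩ := val_dec (M := M) (Q := 2 * s) (by omega) (τ / s)
    (x := fun e => dig s b τ e (u e)) (y := fun e => dig s b τ e (v e))
    (fun e => dig_lt (hu e)) (fun e => dig_lt (hv e)) (e₀ := N)
    (dig_ne h.ne (hu N) (hv N))
    (by
      intro e he
      have : e ≠ N := by
        rintro rfl
        exact lt_irrefl _ he
      rw [heq e this])
  refine ⟨a1, ?_⟩
  rw [a2, dig_lt_iff h (hv N)]

/-- two points which differ in at least two coordinates -/
lemma pp_two {s M : ℕ} (hs : 0 < s) (N X : Fin M) (hNX : N < X) (u v : Fin M → ℕ)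
    (hu : ∀ e, u e < s) (hv : ∀ e, v e < s) (hX : u X ≠ v X) (hN : u N ≠ v N)
    (hXmax : ∀ e, X < e → u e = v e) (hNmin : ∀ e, e < N → u e = v e) (b : Bool) (τ : ℕ) :
    val (2 * s) (τ / s) (fun e => dig s b τ e (u e)) ≠
        val (2 * s) (τ / s) (fun e => dig s b τ e (v e)) ∧
      (val (2 * s) (τ / s) (fun e => dig s b τ e (u e)) <
        val (2 * s) (τ / s) (fun e => dig s b τ e (v e)) ↔
        if τ / s < X then (b = true ↔ v X < u X) else (b = true ↔ u N < v N)) := by
  split_ifs with hj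
  · obtain ⟨a1, a2⟩ := val_dec (M := M) (Q := 2 * s) (by omega) (τ / s)
      (x := fun e => dig s b τ e (u e)) (y := fun e => dig s b τ e (v e))
      (fun e => dig_lt (hu e)) (fun e => dig_lt (hv e)) (e₀ := X)
      (dig_ne hX (hu X) (hv X))
      (by
        intro e he
        unfold ex at he
        rw [if_pos hj] at he
        split_ifs at he with hc
        · rw [hXmax e he]
        · omega)
    refine ⟨a1, ?_⟩
    rw [a2, dig_hi hs hj hX (hu X) (hv X)]
  · have hNX' : (N : ℕ) < X := hNX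
    obtain ⟨a1, a2⟩ := val_dec (M := M) (Q := 2 * s) (by omega) (τ / s)
      (x := fun e => dig s b τ e (u e)) (y := fun e => dig s b τ e (v e))
      (fun e => dig_lt (hu e)) (fun e => dig_lt (hv e)) (e₀ := N)
      (dig_ne hN (hu N) (hv N))
      (by
        intro e he
        unfold ex at he
        rw [if_neg (by omega)] at he
        split_ifs at he with hc
        · rw [hXmax e (by rw [Fin.lt_def]; omega)]
        · rw [hNmin e (by rw [Fin.lt_def]; omega)])
    refine ⟨a1, ?_⟩
    rw [a2, dig_lo hs (by omega) hN (hu N) (hv N)]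

end Q137.Tang
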