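import Mathlib
import Pool.Agent.Q137.Tang.Analysis

set_option autoImplicit false

open Finset

namespace Q137.Tang

/-- `f` changes its truth value at most `k` times between consecutive times of `0, ..., T` -/
def Few (k T : ℕ) (f : ℕ → Prop) : Prop :=
  ∃ C : Finset ℕ, C.card ≤ k ∧ ∀ t < T, t + 1 ∉ C → (f t ↔ f (t + 1))

/-- the ranks of `i` and `j` are never equal, change their order at most `k` times, and are in
both orders at some time -/
def Cross (k T : ℕ) {ι : Type} (r : ℕ → ι → ℕ) (i j : ι) : Prop :=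
  (∀ t ≤ T, r t i ≠ r t j) ∧ Few k T (fun t => r t i < r t j) ∧
    (∃ t ≤ T, r t i < r t j) ∧ ∃ t ≤ T, r t j < r t i

/-- the rank of `i` is below that of `j` except at one interior time, where they agree -/
def Touch (T : ℕ) {ι : Type} (r : ℕ → ι → ℕ) (i j : ι) : Prop :=
  ∃ t₀, 0 < t₀ ∧ t₀ < T ∧ r t₀ i = r t₀ j ∧ ∀ t ≤ T, t ≠ t₀ → r t i < r t j

/-- heights realising the ranks -/
noncomputable def hgt (N : ℕ) (t : ℕ) (a : ℕ) : ℝ :=
  if Even t then (a : ℝ) else ((N + 1 : ℕ) : ℝ) ^ a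

lemma hgt_lt {N t a b : ℕ} (h : a < b) (hb : b < N) : hgt N t a < hgt N t b := by
  unfold hgt
  split_ifs
  · exact_mod_cast h
  · apply pow_lt_pow_right₀ _ h
    have : 1 < N + 1 := by omega
    exact_mod_cast this

lemma hgt_lt_iff {N t a b : ℕ} (ha : a < N) (hb : b < N) : hgt N t a < hgt N t b ↔ a < b := by
  constructor
  · intro h
    rcases lt_trichotomy a b with h1 | h1 | h1
    · exact h1
    · subst h1
      exact absurd h (lt_irrefl _)
    · exact absurd h (not_lt.2 (hgt_lt h1 ha).le)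
  · intro h
    exact hgt_lt h hb

lemma hgt_inj {N t a b : ℕ} (ha : a < N) (hb : b < N) (h : hgt N t a = hgt N t b) : a = b := by
  rcases lt_trichotomy a b with h1 | h1 | h1
  · exact absurd h (hgt_lt h1 hb).ne
  · exact h1
  · exact absurd h (hgt_lt h1 ha).ne'

section

variable {ι : Type} {k T N : ℕ} {r : ℕ → ι → ℕ}

/-- the curves -/
noncomputable def cur (T N : ℕ) (r : ℕ → ι → ℕ) (i : ι) (x : ℝ) : ℝ :=
  pl T (fun t => hgt N t (r t i)) x

lemma cur_eq_iff (i j : ι) (x : ℝ) :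
    cur T N r i x = cur T N r j x ↔ pl T (fun t => hgt N t (r t j) - hgt N t (r t i)) x = 0 := by
  rw [← pl_sub, sub_eq_zero]
  exact eq_comm

lemma cross_pair (hN : ∀ t ≤ T, ∀ i, r t i < N) {i j : ι} (h : Cross k T r i j) :
    {x : ℝ | cur T N r i x = cur T N r j x}.Finite ∧
      {x : ℝ | cur T N r i x = cur T N r j x}.ncard ≤ k ∧
      ∃ x, cur T N r i x = cur T N r j x := by
  classical
  obtain ⟨hne, ⟨C, hC, hCt⟩, ⟨t₁, ht₁, h1⟩, ⟨t₂, ht₂, h2⟩⟩ := h
  have hD : ∀ t ≤ T, (fun t => hgt N t (r t j) - hgt N t (r t i)) t ≠ 0 := by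
    intro t ht h0
    simp only at h0
    exact hne t ht (hgt_inj (hN t ht i) (hN t ht j) (sub_eq_zero.1 h0).symm)
  have hset : {x : ℝ | cur T N r i x = cur T N r j x} =
      {x : ℝ | pl T (fun t => hgt N t (r t j) - hgt N t (r t i)) x = 0} := by
    ext x
    exact cur_eq_iff i j x
  obtain ⟨hfin, hcard⟩ := zeros_finite_card hD
  rw [hset]
  refine ⟨hfin, hcard.trans (le_trans ?_ hC), ?_⟩
  · apply Finset.card_le_card_of_injOn (fun t => t + 1)
    · intro t ht
      simp only [coe_filter, mem_range, Set.mem_ofPred_eq] at ht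
      obtain ⟨htT, hch⟩ := ht
      by_contra hcon
      apply hch
      have := hCt t htT hcon
      rw [sub_pos, sub_pos, hgt_lt_iff (hN t htT.le i) (hN t htT.le j),
        hgt_lt_iff (hN _ htT i) (hN _ htT j)]
      exact this
    · intro a _ b _ hab
      simpa using hab
  · obtain ⟨x, hx⟩ := exists_zero (D := fun t => hgt N t (r t j) - hgt N t (r t i)) ht₁ ht₂
      (sub_pos.2 (hgt_lt h1 (hN _ ht₁ _))) (sub_neg.2 (hgt_lt h2 (hN _ ht₂ _)))
    exact ⟨x, (cur_eq_iff i j x).2 hx⟩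

lemma touch_pair (hN : ∀ t ≤ T, ∀ i, r t i < N) {i j : ι} (h : Touch T r i j) :
    ∃ x₀ : ℝ, (∀ x, cur T N r i x = cur T N r j x ↔ x = x₀) ∧
      ∀ x, cur T N r i x ≤ cur T N r j x := by
  obtain ⟨t₀, h0, hT, heq, hlt⟩ := h
  obtain ⟨hz, hp⟩ := touch (D := fun t => hgt N t (r t j) - hgt N t (r t i)) h0 hT
    (by show hgt N t₀ (r t₀ j) - hgt N t₀ (r t₀ i) = 0; rw [heq, sub_self])
    (fun t ht hne => sub_pos.2 (hgt_lt (hlt t ht hne) (hN _ ht _)))
  refine ⟨t₀, fun x => ⟨fun hx => ?_, fun hx => ?_⟩, fun x => ?_⟩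
  · by_contra hne
    have := hp x hne
    rw [(cur_eq_iff i j x).1 hx] at this
    exact lt_irrefl _ this
  · subst hx
    exact (cur_eq_iff i j _).2 hz
  · by_cases hx : x = t₀
    · subst hx
      exact ((cur_eq_iff i j _).2 hz).le
    · have := hp x hx
      rw [← pl_sub, sub_pos] at this
      exact this.le

lemma no_three_cur (hN : ∀ t ≤ T, ∀ i, r t i < N)
    (h3 : ∀ t ≤ T, ∀ i j l, i ≠ j → j ≠ l → i ≠ l → ¬ (r t i = r t j ∧ r t j = r t l))
    (h2 : ∀ i j, i ≠ j → ∀ t < T, ¬ (r t i = r t j ∧ r (t + 1) i = r (t + 1) j))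
    {i j l : ι} (hij : i ≠ j) (hjl : j ≠ l) (hil : i ≠ l) (x : ℝ) :
    ¬ (cur T N r i x = cur T N r j x ∧ cur T N r j x = cur T N r l x) := by
  rintro ⟨e1, e2⟩
  have hnode : ∀ t ≤ T, hgt N t (r t i) = hgt N t (r t j) → hgt N t (r t j) = hgt N t (r t l) →
      False := by
    intro t ht a b
    exact h3 t ht i j l hij hjl hil ⟨hgt_inj (hN t ht i) (hN t ht j) a,
      hgt_inj (hN t ht j) (hN t ht l) b⟩
  unfold cur at e1 e2
  rcases le_or_gt x 0 with h1 | h1
  · rw [pl_left T _ h1, pl_left T _ h1] at e1 e2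
    exact hnode 0 (Nat.zero_le _) e1 e2
  rcases le_or_gt (T : ℝ) x with h4 | h4
  · rw [pl_right T _ h4, pl_right T _ h4] at e1 e2
    exact hnode T le_rfl e1 e2
  have hfl : ⌊x⌋₊ < T := (Nat.floor_lt h1.le).2 h4
  have h5 : (⌊x⌋₊ : ℝ) ≤ x := Nat.floor_le h1.le
  have h6 : x < ⌊x⌋₊ + 1 := Nat.lt_floor_add_one x
  rw [pl_seg hfl _ h5 h6.le, pl_seg hfl _ h5 h6.le] at e1 e2
  rcases (sub_nonneg.2 h5).lt_or_eq with h7 | h7
  swap
  · rw [← h7] at e1 e2
    simp only [sub_zero, one_mul, zero_mul, add_zero] at e1 e2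
    exact hnode _ hfl.le e1 e2
  set c : ℝ := x - ⌊x⌋₊ with hc
  set t : ℕ := ⌊x⌋₊ with ht
  have h8 : 0 < 1 - c := by linarith
  -- the general position argument
  have key : ∀ i j : ι, i ≠ j → (1 - c) * hgt N t (r t i) + c * hgt N (t + 1) (r (t + 1) i) =
      (1 - c) * hgt N t (r t j) + c * hgt N (t + 1) (r (t + 1) j) →
      r t i ≠ r t j ∧ r (t + 1) i ≠ r (t + 1) j := by
    intro i j hij he
    constructor
    · intro hr
      rw [hr] at he
      have h9 : hgt N (t + 1) (r (t + 1) i) = hgt N (t + 1) (r (t + 1) j) := by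
        have : c * hgt N (t + 1) (r (t + 1) i) = c * hgt N (t + 1) (r (t + 1) j) := by linarith
        exact mul_left_cancel₀ h7.ne' this
      exact h2 i j hij t hfl ⟨hr, hgt_inj (hN _ hfl i) (hN _ hfl j) h9⟩
    · intro hr
      rw [hr] at he
      have h9 : hgt N t (r t i) = hgt N t (r t j) := by
        have : (1 - c) * hgt N t (r t i) = (1 - c) * hgt N t (r t j) := by linarith
        exact mul_left_cancel₀ h8.ne' this
      exact h2 i j hij t hfl ⟨hgt_inj (hN _ hfl.le i) (hN _ hfl.le j) h9, hr⟩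
  obtain ⟨k1, k2⟩ := key i j hij e1
  obtain ⟨k3, k4⟩ := key j l hjl e2
  obtain ⟨k5, k6⟩ := key i l hil (e1.trans e2)
  rcases Nat.even_or_odd t with hev | hodd
  · have hodd' : ¬ Even (t + 1) := by
      rw [Nat.even_add_one]
      exact fun h => h hev
    simp only [hgt, hev, hodd', if_true, if_false] at e1 e2
    exact no_three h8 h7 (hN t hfl.le i) (hN t hfl.le j) (hN t hfl.le l) k2 k4 k6 rfl e1.symm
      (e1.trans e2).symm
  · have hodd' : ¬ Even t := Nat.not_even_iff_odd.2 hodd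
    have hev : Even (t + 1) := Nat.even_add_one.2 hodd'
    simp only [hgt, hev, hodd', if_true, if_false] at e1 e2
    refine no_three (y := c * (r (t + 1) i : ℝ) + (1 - c) * ((N + 1 : ℕ) : ℝ) ^ r t i) h7 h8
      (hN _ hfl i) (hN _ hfl j) (hN _ hfl l) k1 k3 k5 rfl ?_ ?_
    · linarith
    · linarith

/-- ranks are realised by curves -/
theorem realise (hk : 1 ≤ k) (hN : ∀ t ≤ T, ∀ i, r t i < N)
    (h3 : ∀ t ≤ T, ∀ i j l, i ≠ j → j ≠ l → i ≠ l → ¬ (r t i = r t j ∧ r t j = r t l))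
    (hpair : ∀ i j, i ≠ j → Cross k T r i j ∨ Cross k T r j i ∨ Touch T r i j ∨ Touch T r j i) :
    ∃ f : ι → ℝ → ℝ, (∀ i, Continuous (f i)) ∧
      (∀ i j, i ≠ j → {x | f i x = f j x}.Finite) ∧
      (∀ i j l, i ≠ j → j ≠ l → i ≠ l → ∀ x, ¬ (f i x = f j x ∧ f j x = f l x)) ∧
      (∀ i j, i ≠ j → {x | f i x = f j x}.ncard ≤ k) ∧
      (∀ i j, i ≠ j → ∃ x, f i x = f j x) ∧
      (∀ i j, Touch T r i j → ∃ x₀, (∀ x, f i x = f j x ↔ x = x₀) ∧ ∀ x, f i x ≤ f j x) := by
  have hall : ∀ i j, i ≠ j → {x : ℝ | cur T N r i x = cur T N r j x}.Finite ∧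
      {x : ℝ | cur T N r i x = cur T N r j x}.ncard ≤ k ∧
      ∃ x, cur T N r i x = cur T N r j x := by
    have hsymm : ∀ i j, {x : ℝ | cur T N r i x = cur T N r j x} =
        {x : ℝ | cur T N r j x = cur T N r i x} := by
      intro i j
      ext x
      exact eq_comm
    have htouch : ∀ i j, Touch T r i j → {x : ℝ | cur T N r i x = cur T N r j x}.Finite ∧
      {x : ℝ | cur T N r i x = cur T N r j x}.ncard ≤ k ∧
      ∃ x, cur T N r i x = cur T N r j x := by
      intro i j h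
      obtain ⟨x₀, hx, -⟩ := touch_pair hN h
      have : {x : ℝ | cur T N r i x = cur T N r j x} = {x₀} := by
        ext x
        simp [hx x]
      rw [this]
      refine ⟨Set.finite_singleton _, by rw [Set.ncard_singleton]; exact hk, x₀, (hx x₀).2 rfl⟩
    intro i j hij
    rcases hpair i j hij with h | h | h | h
    · exact cross_pair hN h
    · obtain ⟨a, b, x, c⟩ := cross_pair hN h
      rw [hsymm]
      exact ⟨a, b, x, c.symm⟩
    · exact htouch i j h
    · obtain ⟨a, b, x, c⟩ := htouch j i h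
      rw [hsymm]
      exact ⟨a, b, x, c.symm⟩
  have h2 : ∀ i j, i ≠ j → ∀ t < T, ¬ (r t i = r t j ∧ r (t + 1) i = r (t + 1) j) := by
    intro i j hij t ht ⟨a, b⟩
    rcases hpair i j hij with h | h | h | h
    · exact h.1 t ht.le a
    · exact h.1 t ht.le a.symm
    · obtain ⟨t₀, -, -, -, hlt⟩ := h
      by_cases h0 : t = t₀
      · exact absurd b (hlt (t + 1) ht (by omega)).ne
      · exact absurd a (hlt t ht.le h0).ne
    · obtain ⟨t₀, -, -, -, hlt⟩ := h
      by_cases h0 : t = t₀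
      · exact absurd b (hlt (t + 1) ht (by omega)).ne'
      · exact absurd a (hlt t ht.le h0).ne'
  refine ⟨cur T N r, fun i => continuous_pl T (fun t => hgt N t (r t i)), fun i j hij => (hall i j hij).1, ?_,
    fun i j hij => (hall i j hij).2.1, fun i j hij => (hall i j hij).2.2,
    fun i j h => touch_pair hN h⟩
  intro i j l hij hjl hil x
  exact no_three_cur hN h3 h2 hij hjl hil x

end

end Q137.Tang
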