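import Mathlib
import Pool.Agent.Q137.Tang.Realise
import Pool.Agent.Q137.Tang.Digits

set_option autoImplicit false

open Finset

namespace Q137.Tang

/-- the points of the grid -/
abbrev Pt (s m : ℕ) : Type := Fin (m + 1) → Fin s

/-- the lines of the grid: a direction and the coordinates off the direction -/
abbrev Ln (s m : ℕ) : Type := Fin (m + 1) × (Fin m → Fin s)

section

variable {s m : ℕ}

/-- the coordinates of the point of the line with coordinate `c` in its direction -/
def car (l : Ln s m) (c : ℕ) : Fin (m + 1) → ℕ :=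
  Fin.insertNth (α := fun _ => ℕ) l.1 c (fun i => (l.2 i : ℕ))

lemma car_same (l : Ln s m) (c : ℕ) : car l c l.1 = c := by
  unfold car
  rw [Fin.insertNth_apply_same]

lemma car_succAbove (l : Ln s m) (c : ℕ) (i : Fin m) :
    car l c (l.1.succAbove i) = (l.2 i : ℕ) := by
  unfold car
  rw [Fin.insertNth_apply_succAbove]

lemma car_off (l : Ln s m) (c c' : ℕ) {e : Fin (m + 1)} (he : e ≠ l.1) :
    car l c e = car l c' e := by
  obtain ⟨i, rfl⟩ := Fin.exists_succAbove_eq he
  rw [car_succAbove, car_succAbove]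

lemma car_lt (l : Ln s m) {c : ℕ} (hc : c < s) (e : Fin (m + 1)) : car l c e < s := by
  by_cases he : e = l.1
  · subst he
    rw [car_same]
    exact hc
  · obtain ⟨i, rfl⟩ := Fin.exists_succAbove_eq he
    rw [car_succAbove]
    exact (l.2 i).2

lemma car_ne {l l' : Ln s m} (h : l.1 = l'.1) (hne : l ≠ l') :
    ∃ e, e ≠ l.1 ∧ car l 0 e ≠ car l' 0 e := by
  have h2 : l.2 ≠ l'.2 := fun h2 => hne (Prod.ext h h2)
  obtain ⟨i, hi⟩ := Function.ne_iff.1 h2
  refine ⟨l.1.succAbove i, Fin.succAbove_ne _ _, ?_⟩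
  rw [car_succAbove, h, car_succAbove]
  exact fun h3 => hi (Fin.ext h3)

/-- the digits of a line -/
def lv (b : Bool) (τ : ℕ) (l : Ln s m) (e : Fin (m + 1)) : ℕ :=
  if e = l.1 then (if b = true then s + τ % s else 2 * s - 1) else dig s b τ e (car l 0 e)

lemma lv_lt (hs : 0 < s) (b : Bool) (τ : ℕ) (l : Ln s m) (e : Fin (m + 1)) :
    lv b τ l e < 2 * s := by
  unfold lv
  have := Nat.mod_lt τ hs
  split_ifs
  · omega
  · omega
  · exact dig_lt (car_lt l hs e)

/-- the height of the lines which are not in their phase -/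
def rank (m : ℕ) (b : Bool) (j d : ℕ) : ℕ :=
  if d < j then j - d else if b = true then 2 * (m + 1) - d else m + 1 + d

/-- the number of lines of one direction -/
def wid (s m : ℕ) : ℕ := Fintype.card (Fin m → Fin s)

/-- the number of a line among those of its direction -/
noncomputable def idx (z : Fin m → Fin s) : ℕ := (Fintype.equivFin (Fin m → Fin s) z : ℕ)

lemma idx_lt (z : Fin m → Fin s) : idx z < wid s m := (Fintype.equivFin (Fin m → Fin s) z).2

lemma idx_inj {z z' : Fin m → Fin s} (h : idx z = idx z') : z = z' :=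
  (Fintype.equivFin (Fin m → Fin s)).injective (Fin.ext h)

/-- the keys of points -/
def keyP (b : Bool) (τ : ℕ) (v : Pt s m) : ℕ :=
  2 * val (2 * s) (τ / s) (fun e => dig s b τ e (v e))

/-- the keys of lines -/
noncomputable def keyL (b : Bool) (τ : ℕ) (l : Ln s m) : ℕ :=
  if τ / s = l.1 then 2 * val (2 * s) (τ / s) (lv b τ l) + (if b = true then 0 else 1)
  else 2 * (2 * s) ^ (m + 2) + (rank m b (τ / s) l.1 * wid s m + idx l.2)

lemma ex_lt {τ : ℕ} (hs : 0 < s) (hτ : τ < (m + 2) * s) (e : Fin (m + 1)) :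
    ex (τ / s) e < m + 2 := by
  have h1 : τ / s < m + 2 := (Nat.div_lt_iff_lt_mul hs).2 hτ
  have h2 := e.2
  unfold ex
  split_ifs <;> omega

lemma keyP_lt (hs : 0 < s) {b : Bool} {τ : ℕ} (hτ : τ < (m + 2) * s) (v : Pt s m) :
    keyP b τ v + 1 < 2 * (2 * s) ^ (m + 2) := by
  have := val_lt_pow (Q := 2 * s) (by omega) (τ / s) (fun e => dig s b τ e (v e))
    (fun e => dig_lt (v e).2) (m + 2) (ex_lt hs hτ)
  unfold keyP
  omega

lemma keyL_lt (hs : 0 < s) {b : Bool} {τ : ℕ} (hτ : τ < (m + 2) * s) (l : Ln s m) :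
    2 * val (2 * s) (τ / s) (lv b τ l) + 1 < 2 * (2 * s) ^ (m + 2) := by
  have := val_lt_pow (Q := 2 * s) (by omega) (τ / s) (lv b τ l)
    (lv_lt hs b τ l) (m + 2) (ex_lt hs hτ)
  omega

/-- a line and its points -/
lemma inc_key (hs : 0 < s) (v : Pt s m) (l : Ln s m) (hinc : ∀ e, e ≠ l.1 → (v e : ℕ) = car l 0 e)
    (b : Bool) (τ : ℕ) (hτ : τ < (m + 2) * s) :
    if b = true ∧ τ = l.1 * s + v l.1 then keyP b τ v = keyL b τ l else keyP b τ v < keyL b τ l := by
  have hdm := Nat.div_add_mod τ s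
  have hmod := Nat.mod_lt τ hs
  have hvl := (v l.1).2
  by_cases hph : τ / s = l.1
  · have hτ' : τ = l.1 * s + τ % s := by
      rw [← hph, mul_comm]
      exact hdm.symm
    have hoff : ∀ e, e ≠ l.1 → dig s b τ e (v e) = lv b τ l e := by
      intro e he
      unfold lv
      rw [if_neg he, hinc e he]
    have hon : (b = true ∧ (v l.1 : ℕ) = τ % s) ∧ dig s b τ l.1 (v l.1) = lv b τ l l.1 ∨
        ¬ (b = true ∧ (v l.1 : ℕ) = τ % s) ∧
          (dig s b τ l.1 (v l.1) < lv b τ l l.1 ∨
            b = false ∧ dig s b τ l.1 (v l.1) = lv b τ l l.1) := by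
      unfold lv dig
      rw [if_pos rfl]
      cases b
      · right
        refine ⟨by simp, ?_⟩
        simp only [decide_eq_false_iff_not, Bool.false_eq_true, if_false, true_and]
        split_ifs <;> omega
      · simp only [decide_eq_true_eq, if_true, true_and]
        by_cases hv : (v l.1 : ℕ) = τ % s
        · left
          refine ⟨hv, ?_⟩
          rw [if_pos (by omega)]
          omega
        · right
          refine ⟨hv, Or.inl ?_⟩
          split_ifs <;> omega
    have heqv : dig s b τ l.1 (v l.1) = lv b τ l l.1 →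
        val (2 * s) (τ / s) (fun e => dig s b τ e (v e)) = val (2 * s) (τ / s) (lv b τ l) := by
      intro h
      congr 1
      funext e
      by_cases he : e = l.1
      · rw [he]; exact h
      · exact hoff e he
    have hltv : dig s b τ l.1 (v l.1) < lv b τ l l.1 →
        val (2 * s) (τ / s) (fun e => dig s b τ e (v e)) < val (2 * s) (τ / s) (lv b τ l) := by
      intro h
      refine val_lt (by omega) (τ / s) (fun e => dig_lt (v e).2) (e₀ := l.1) h ?_
      intro e he
      have : e ≠ l.1 := by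
        rintro rfl
        exact lt_irrefl _ he
      exact hoff e this
    unfold keyP keyL
    rw [if_pos hph]
    rcases hon with ⟨⟨h1, h2⟩, h3⟩ | ⟨h1, h2⟩
    · rw [if_pos ⟨h1, by omega⟩, if_pos h1, heqv h3]
      rfl
    · rw [if_neg]
      · rcases h2 with h2 | ⟨h2, h3⟩
        · have := hltv h2
          split_ifs <;> omega
        · have := heqv h3
          rw [this, h2]
          simp
      · rintro ⟨a1, a2⟩
        exact h1 ⟨a1, by omega⟩
  · rw [if_neg]
    · have := keyP_lt (b := b) hs hτ v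
      unfold keyL
      rw [if_neg hph]
      omega
    · rintro ⟨-, a2⟩
      apply hph
      rw [a2]
      have : (l.1 : ℕ) * s + v l.1 = v l.1 + s * l.1 := by ring
      rw [this, Nat.add_mul_div_left _ _ hs, Nat.div_eq_of_lt hvl, zero_add]

/-- a line and the other points -/
lemma noninc_key (hs : 0 < s) (v : Pt s m) (l : Ln s m)
    (hinc : ∃ e, e ≠ l.1 ∧ (v e : ℕ) ≠ car l 0 e) :
    ∃ S : Prop, ∀ (b : Bool) (τ : ℕ), τ < (m + 2) * s → keyP b τ v ≠ keyL b τ l ∧
      (keyP b τ v < keyL b τ l ↔ (τ / s = l.1 → (b = true ↔ S))) := by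
  obtain ⟨S, hS⟩ := phase_dec hs l.1 (fun e => (v e : ℕ)) (car l 0) (fun e => (v e).2)
    (car_lt l hs) hinc
  refine ⟨S, ?_⟩
  intro b τ hτ
  by_cases hph : τ / s = l.1
  · obtain ⟨a1, a2⟩ := hS b τ hph (fun e => dig s b τ e (v e)) (lv b τ l)
      (fun e => dig_lt (v e).2) (lv_lt hs b τ l) (fun e _ => rfl)
      (fun e he => by unfold lv; rw [if_neg he])
    have h1 : (keyP b τ v < keyL b τ l ↔
        val (2 * s) (τ / s) (fun e => dig s b τ e (v e)) < val (2 * s) (τ / s) (lv b τ l)) := by
      unfold keyP keyL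
      rw [if_pos hph]
      split_ifs <;> omega
    constructor
    · unfold keyP keyL
      rw [if_pos hph]
      split_ifs <;> omega
    · rw [h1, a2]
      exact ⟨fun h _ => h, fun h => h hph⟩
  · have h1 : keyP b τ v < keyL b τ l := by
      have := keyP_lt (b := b) hs hτ v
      unfold keyL
      rw [if_neg hph]
      omega
    exact ⟨h1.ne, fun _ h => absurd h hph, fun _ => h1⟩

/-- two lines of one direction -/
lemma same_key (hs : 0 < s) (l l' : Ln s m) (hd : l.1 = l'.1) (hne : l ≠ l') :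
    ∃ S I : Prop, ∀ (b : Bool) (τ : ℕ), τ < (m + 2) * s → keyL b τ l ≠ keyL b τ l' ∧
      (keyL b τ l < keyL b τ l' ↔ if τ / s = l.1 then (b = true ↔ S) else I) := by
  obtain ⟨S, hS⟩ := phase_dec hs l.1 (car l 0) (car l' 0) (car_lt l hs) (car_lt l' hs)
    (car_ne hd hne)
  refine ⟨S, idx l.2 < idx l'.2, ?_⟩
  intro b τ hτ
  by_cases hph : τ / s = l.1
  · have hph' : τ / s = l'.1 := by rw [hph, hd]
    obtain ⟨a1, a2⟩ := hS b τ hph (lv b τ l) (lv b τ l')
      (lv_lt hs b τ l) (lv_lt hs b τ l') (fun e he => by unfold lv; rw [if_neg he])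
      (fun e he => by unfold lv; rw [if_neg (by rw [← hd]; exact he)])
    unfold keyL
    rw [if_pos hph, if_pos hph', if_pos hph, ← a2]
    split_ifs <;> omega
  · have hph' : ¬ τ / s = l'.1 := by rw [← hd]; exact hph
    have h2 : idx l.2 ≠ idx l'.2 := fun h => hne (Prod.ext hd (idx_inj h))
    unfold keyL
    rw [if_neg hph, if_neg hph', if_neg hph, hd]
    omega

/-- two lines of different directions -/
lemma diff_key (hs : 0 < s) (l l' : Ln s m) (hd : l.1 < l'.1) (b : Bool) (τ : ℕ)
    (hτ : τ < (m + 2) * s) : keyL b τ l ≠ keyL b τ l' ∧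
      (keyL b τ l < keyL b τ l' ↔ (τ / s < l'.1 ∧ (b = true → l.1 ≤ τ / s))) := by
  have hd' : (l.1 : ℕ) < l'.1 := hd
  have hl := l.1.2
  have hl' := l'.1.2
  have hj : τ / s < m + 2 := (Nat.div_lt_iff_lt_mul hs).2 hτ
  by_cases h1 : τ / s = l.1
  · have h2 : ¬ τ / s = l'.1 := by omega
    have h3 := keyL_lt (b := b) hs hτ l
    have h4 : keyL b τ l < keyL b τ l' := by
      unfold keyL
      rw [if_pos h1, if_neg h2]
      split_ifs <;> omega
    refine ⟨h4.ne, fun _ => ⟨by omega, fun _ => by omega⟩, fun _ => h4⟩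
  by_cases h2 : τ / s = l'.1
  · have h3 := keyL_lt (b := b) hs hτ l'
    have h4 : keyL b τ l' < keyL b τ l := by
      unfold keyL
      rw [if_neg h1, if_pos h2]
      split_ifs <;> omega
    refine ⟨h4.ne', fun h => absurd h (not_lt.2 h4.le), fun h => ?_⟩
    omega
  have hrank : ∀ a a' : ℕ, rank m b (τ / s) a < rank m b (τ / s) a' → ∀ z z' : Fin m → Fin s,
      rank m b (τ / s) a * wid s m + idx z < rank m b (τ / s) a' * wid s m + idx z' := by
    intro a a' h z z'
    have h5 : (rank m b (τ / s) a + 1) * wid s m ≤ rank m b (τ / s) a' * wid s m :=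
      Nat.mul_le_mul_right _ h
    have h6 := idx_lt z
    rw [Nat.succ_mul] at h5
    omega
  unfold keyL
  rw [if_neg h1, if_neg h2]
  by_cases hC : τ / s < l'.1 ∧ (b = true → l.1 ≤ τ / s)
  · have h4 : rank m b (τ / s) l.1 < rank m b (τ / s) l'.1 := by
      unfold rank
      cases b
      · simp only [Bool.false_eq_true, if_false]
        split_ifs <;> omega
      · have := hC.2 rfl
        simp only [if_true]
        split_ifs <;> omega
    have h5 := hrank _ _ h4 l.2 l'.2
    refine ⟨by omega, fun _ => hC, fun _ => by omega⟩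
  · have h4 : rank m b (τ / s) l'.1 < rank m b (τ / s) l.1 := by
      unfold rank
      cases b
      · have h6 : ¬ τ / s < l'.1 := fun h => hC ⟨h, by simp⟩
        simp only [Bool.false_eq_true, if_false]
        split_ifs <;> omega
      · have h6 : ¬ (τ / s < l'.1 ∧ l.1 ≤ τ / s) := fun h => hC ⟨h.1, fun _ => h.2⟩
        simp only [if_true]
        split_ifs <;> omega
    have h5 := hrank _ _ h4 l'.2 l.2
    refine ⟨by omega, fun h => by omega, fun h => absurd h hC⟩

end

end Q137.Tang
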