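import Mathlib
import Pool.Agent.Q137.Tang.Keys

set_option autoImplicit false

open Finset

namespace Q137.Tang

section

variable {s m : ℕ}

/-- keys in block `b` at time `τ` -/
noncomputable def keyB (b : Bool) (τ : ℕ) : Pt s m ⊕ Ln s m → ℕ :=
  Sum.elim (keyP b τ) (keyL b τ)

/-- keys at time `t`: first the block `false`, then the block `true` -/
noncomputable def key (t : ℕ) : Pt s m ⊕ Ln s m → ℕ :=
  keyB (decide ((m + 2) * s ≤ t)) (if (m + 2) * s ≤ t then t - (m + 2) * s else t)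

lemma key_lo {t : ℕ} (h : t < (m + 2) * s) :
    (key t : Pt s m ⊕ Ln s m → ℕ) = keyB false t := by
  unfold key
  have : ¬ (m + 2) * s ≤ t := by omega
  simp [this]

lemma key_hi {t : ℕ} (h : (m + 2) * s ≤ t) :
    (key t : Pt s m ⊕ Ln s m → ℕ) = keyB true (t - (m + 2) * s) := by
  unfold key
  simp [h]

lemma few_mk {i j : Pt s m ⊕ Ln s m} (F : Bool → ℕ → Prop)
    (hF : ∀ b τ, τ < (m + 2) * s → keyB b τ i ≠ keyB b τ j ∧ (keyB b τ i < keyB b τ j ↔ F b τ))
    (C : Finset ℕ) (hC : C.card ≤ 3)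
    (h0 : ∀ τ, τ + 1 < (m + 2) * s → τ + 1 ∉ C → (F false τ ↔ F false (τ + 1)))
    (h1 : ∀ τ, τ + 1 < (m + 2) * s → (m + 2) * s + (τ + 1) ∉ C → (F true τ ↔ F true (τ + 1)))
    (h2 : (m + 2) * s ∉ C → (F false ((m + 2) * s - 1) ↔ F true 0))
    (h3 : ∃ b τ, τ < (m + 2) * s ∧ F b τ) (h4 : ∃ b τ, τ < (m + 2) * s ∧ ¬ F b τ) :
    Cross 3 (2 * ((m + 2) * s) - 1) key i j := by
  have klo : ∀ t, t < (m + 2) * s → (key t : Pt s m ⊕ Ln s m → ℕ) = keyB false t :=
    fun t ht => key_lo ht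
  have khi : ∀ t, (m + 2) * s ≤ t →
      (key t : Pt s m ⊕ Ln s m → ℕ) = keyB true (t - (m + 2) * s) :=
    fun t ht => key_hi ht
  generalize (m + 2) * s = BL at hF h0 h1 h2 h3 h4 klo khi ⊢
  refine ⟨?_, ⟨C, hC, ?_⟩, ?_, ?_⟩
  · intro t ht
    rcases lt_or_ge t BL with h | h
    · rw [klo t h]
      exact (hF false t h).1
    · rw [khi t h]
      exact (hF true (t - BL) (by omega)).1
  · intro t ht htC
    show (key t i < key t j ↔ key (t + 1) i < key (t + 1) j)
    rcases lt_trichotomy (t + 1) BL with h | h | h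
    · rw [klo t (by omega), klo (t + 1) h, (hF false t (by omega)).2, (hF false (t + 1) h).2]
      exact h0 t h htC
    · rw [klo t (by omega), khi (t + 1) (by omega), (hF false t (by omega)).2,
        (hF true (t + 1 - BL) (by omega)).2]
      have := h2 (by rw [← h]; exact htC)
      rwa [show BL - 1 = t by omega, show (0 : ℕ) = t + 1 - BL by omega] at this
    · rw [khi t (by omega), khi (t + 1) (by omega), (hF true (t - BL) (by omega)).2,
        (hF true (t + 1 - BL) (by omega)).2]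
      have := h1 (t - BL) (by omega) (by rwa [show BL + (t - BL + 1) = t + 1 by omega])
      rwa [show t - BL + 1 = t + 1 - BL by omega] at this
  · obtain ⟨b, τ, hτ, hFb⟩ := h3
    cases b
    · exact ⟨τ, by omega, by rw [klo τ hτ]; exact (hF false τ hτ).2.2 hFb⟩
    · refine ⟨BL + τ, by omega, ?_⟩
      rw [khi _ (by omega), Nat.add_sub_cancel_left]
      exact (hF true τ hτ).2.2 hFb
  · obtain ⟨b, τ, hτ, hFb⟩ := h4
    have h5 : ∀ b, ¬ F b τ → keyB b τ j < keyB b τ i := by
      intro b hb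
      have h6 := (hF b τ hτ).1
      have h7 : ¬ keyB b τ i < keyB b τ j := fun h => hb ((hF b τ hτ).2.1 h)
      omega
    cases b
    · exact ⟨τ, by omega, by rw [klo τ hτ]; exact h5 false hFb⟩
    · refine ⟨BL + τ, by omega, ?_⟩
      rw [khi _ (by omega), Nat.add_sub_cancel_left]
      exact h5 true hFb

lemma cross_pp_one (hs : 0 < s) (u v : Pt s m) (N : Fin (m + 1)) (h : (u N : ℕ) < v N)
    (heq : ∀ e, e ≠ N → u e = v e) :
    Cross 3 (2 * ((m + 2) * s) - 1) key (Sum.inl u : Pt s m ⊕ Ln s m) (Sum.inl v) := by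
  have hc : (N : ℕ) * s + v N < (m + 2) * s := by
    have h1 := N.2
    have h2 := (v N).2
    have h3 : ((N : ℕ) + 1) * s ≤ (m + 2) * s := Nat.mul_le_mul_right _ (by omega)
    rw [Nat.succ_mul] at h3
    omega
  refine few_mk (fun b τ => decide ((N : ℕ) * s + v N ≤ τ) = b) ?_
    {(N : ℕ) * s + v N, (m + 2) * s + ((N : ℕ) * s + v N)} (card_le_two.trans (by norm_num))
    ?_ ?_ ?_ ?_ ?_
  · intro b τ _
    obtain ⟨a1, a2⟩ := pp_one hs N (fun e => (u e : ℕ)) (fun e => (v e : ℕ)) (fun e => (u e).2)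
      (fun e => (v e).2) h (fun e he => by rw [heq e he]) b τ
    simp only [keyB, Sum.elim_inl, keyP]
    rw [← a2]
    omega
  · intro τ _ hτ
    simp only [mem_insert, mem_singleton, decide_eq_false_iff_not] at hτ ⊢
    omega
  · intro τ _ hτ
    simp only [mem_insert, mem_singleton, decide_eq_true_eq] at hτ ⊢
    omega
  · intro _
    simp only [decide_eq_true_eq, decide_eq_false_iff_not]
    omega
  · exact ⟨true, (N : ℕ) * s + v N, hc, by simp⟩
  · exact ⟨false, (N : ℕ) * s + v N, hc, by simp⟩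

lemma cross_pp_two (hs : 0 < s) (u v : Pt s m) (N X : Fin (m + 1)) (hNX : N < X)
    (hX : (u X : ℕ) ≠ v X) (hN : (u N : ℕ) ≠ v N) (hXmax : ∀ e, X < e → u e = v e)
    (hNmin : ∀ e, e < N → u e = v e) :
    Cross 3 (2 * ((m + 2) * s) - 1) key (Sum.inl u : Pt s m ⊕ Ln s m) (Sum.inl v) := by
  have hNX' : (N : ℕ) < X := hNX
  have hXs : s ≤ (X : ℕ) * s := by
    have : 1 * s ≤ (X : ℕ) * s := Nat.mul_le_mul_right _ (by omega)
    omega
  have hXlt : (X : ℕ) * s < (m + 2) * s := Nat.mul_lt_mul_of_pos_right (by have := X.2; omega) hs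
  have hdiv : ∀ τ, τ / s < X ↔ τ < X * s := fun τ => Nat.div_lt_iff_lt_mul hs
  refine few_mk (fun b τ => if τ / s < X then (b = true ↔ (v X : ℕ) < u X)
      else (b = true ↔ (u N : ℕ) < v N)) ?_
    {(X : ℕ) * s, (m + 2) * s, (m + 2) * s + (X : ℕ) * s} card_le_three
    ?_ ?_ ?_ ?_ ?_
  · intro b τ _
    obtain ⟨a1, a2⟩ := pp_two hs N X hNX (fun e => (u e : ℕ)) (fun e => (v e : ℕ))
      (fun e => (u e).2) (fun e => (v e).2) hX hN (fun e he => by rw [hXmax e he])
      (fun e he => by rw [hNmin e he]) b τ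
    simp only [keyB, Sum.elim_inl, keyP]
    rw [← a2]
    omega
  · intro τ _ hτ
    simp only [mem_insert, mem_singleton] at hτ ⊢
    have : τ + 1 < (X : ℕ) * s ↔ τ < (X : ℕ) * s := by omega
    simp only [hdiv, this]
  · intro τ _ hτ
    simp only [mem_insert, mem_singleton] at hτ ⊢
    have : τ + 1 < (X : ℕ) * s ↔ τ < (X : ℕ) * s := by omega
    simp only [hdiv, this]
  · intro h
    simp at h
  · by_cases hA : (u X : ℕ) < v X
    · refine ⟨false, 0, by omega, ?_⟩
      simp only [hdiv]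
      rw [if_pos (by omega)]
      simp
      omega
    · refine ⟨true, 0, by omega, ?_⟩
      simp only [hdiv]
      rw [if_pos (by omega)]
      simp
      omega
  · by_cases hA : (u X : ℕ) < v X
    · refine ⟨true, 0, by omega, ?_⟩
      simp only [hdiv]
      rw [if_pos (by omega)]
      simp
      omega
    · refine ⟨false, 0, by omega, ?_⟩
      simp only [hdiv]
      rw [if_pos (by omega)]
      simp
      omega

lemma phase_iff (hs : 0 < s) (d τ : ℕ) : τ / s = d ↔ d * s ≤ τ ∧ τ < d * s + s := by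
  have h1 : τ / s < d + 1 ↔ τ < (d + 1) * s := Nat.div_lt_iff_lt_mul hs
  have h2 : τ / s < d ↔ τ < d * s := Nat.div_lt_iff_lt_mul hs
  rw [Nat.succ_mul] at h1
  omega

lemma dir_bound (d : Fin (m + 1)) : (d : ℕ) * s + s + s ≤ (m + 2) * s := by
  have h1 := d.2
  have h3 : ((d : ℕ) + 2) * s ≤ (m + 2) * s := Nat.mul_le_mul_right _ (by omega)
  have h4 : ((d : ℕ) + 2) * s = d * s + s + s := by ring
  omega

lemma cross_pl (hs : 0 < s) (v : Pt s m) (l : Ln s m)
    (hinc : ∃ e, e ≠ l.1 ∧ (v e : ℕ) ≠ car l 0 e) :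
    Cross 3 (2 * ((m + 2) * s) - 1) key (Sum.inl v) (Sum.inr l) := by
  classical
  obtain ⟨S, hS⟩ := noninc_key hs v l hinc
  have hd := dir_bound (s := s) l.1
  by_cases hSt : S
  · refine few_mk (fun b τ => τ / s = l.1 → (b = true ↔ S)) hS
      {(l.1 : ℕ) * s, (l.1 : ℕ) * s + s} (card_le_two.trans (by norm_num)) ?_ ?_ ?_ ?_ ?_
    · intro τ _ hτ
      simp only [mem_insert, mem_singleton, hSt, phase_iff hs] at hτ ⊢
      simp
      omega
    · intro τ _ hτ
      simp [hSt]
    · intro _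
      simp only [hSt, phase_iff hs]
      simp
      omega
    · exact ⟨true, 0, by omega, by simp [hSt]⟩
    · refine ⟨false, l.1 * s, by omega, ?_⟩
      simp only [hSt, phase_iff hs]
      simp
      omega
  · refine few_mk (fun b τ => τ / s = l.1 → (b = true ↔ S)) hS
      {(m + 2) * s + (l.1 : ℕ) * s, (m + 2) * s + ((l.1 : ℕ) * s + s)}
      (card_le_two.trans (by norm_num)) ?_ ?_ ?_ ?_ ?_
    · intro τ _ hτ
      simp [hSt]
    · intro τ _ hτ
      simp only [mem_insert, mem_singleton, hSt, phase_iff hs] at hτ ⊢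
      simp
      omega
    · intro h
      simp only [mem_insert, mem_singleton, hSt, phase_iff hs, Bool.false_eq_true, iff_false,
        not_true_eq_false, imp_true_iff, imp_false, true_iff] at h ⊢
      omega
    · exact ⟨false, 0, by omega, by simp [hSt]⟩
    · refine ⟨true, l.1 * s, by omega, ?_⟩
      simp only [hSt, phase_iff hs]
      simp
      omega

lemma cross_same (hs : 0 < s) (l l' : Ln s m) (hd : l.1 = l'.1) (hne : l ≠ l') :
    Cross 3 (2 * ((m + 2) * s) - 1) key (Sum.inr l : Pt s m ⊕ Ln s m) (Sum.inr l') := by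
  classical
  obtain ⟨S, I, hS⟩ := same_key hs l l' hd hne
  have hd := dir_bound (s := s) l.1
  have h3 : ∃ b τ, τ < (m + 2) * s ∧ (if τ / s = l.1 then (b = true ↔ S) else I) := by
    by_cases hSt : S
    · refine ⟨true, l.1 * s, by omega, ?_⟩
      rw [if_pos ((phase_iff hs _ _).2 (by omega))]
      simp [hSt]
    · refine ⟨false, l.1 * s, by omega, ?_⟩
      rw [if_pos ((phase_iff hs _ _).2 (by omega))]
      simp [hSt]
  have h4 : ∃ b τ, τ < (m + 2) * s ∧ ¬ (if τ / s = l.1 then (b = true ↔ S) else I) := by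
    by_cases hSt : S
    · refine ⟨false, l.1 * s, by omega, ?_⟩
      rw [if_pos ((phase_iff hs _ _).2 (by omega))]
      simp [hSt]
    · refine ⟨true, l.1 * s, by omega, ?_⟩
      rw [if_pos ((phase_iff hs _ _).2 (by omega))]
      simp [hSt]
  by_cases hSI : (S ↔ I)
  · refine few_mk (fun b τ => if τ / s = l.1 then (b = true ↔ S) else I) hS
      {(l.1 : ℕ) * s, (l.1 : ℕ) * s + s} (card_le_two.trans (by norm_num)) ?_ ?_ ?_ h3 h4
    · intro τ _ hτ
      simp only [mem_insert, mem_singleton, phase_iff hs] at hτ ⊢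
      have : ((l.1 : ℕ) * s ≤ τ ∧ τ < l.1 * s + s) ↔
          ((l.1 : ℕ) * s ≤ τ + 1 ∧ τ + 1 < l.1 * s + s) := by omega
      simp only [this]
    · intro τ _ hτ
      simp [hSI]
    · intro _
      simp only [phase_iff hs]
      rw [if_neg (by omega)]
      simp [hSI]
  · refine few_mk (fun b τ => if τ / s = l.1 then (b = true ↔ S) else I) hS
      {(m + 2) * s + (l.1 : ℕ) * s, (m + 2) * s + ((l.1 : ℕ) * s + s)}
      (card_le_two.trans (by norm_num)) ?_ ?_ ?_ h3 h4
    · intro τ _ hτ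
      have : ¬ S ↔ I := by tauto
      simp [this]
    · intro τ _ hτ
      simp only [mem_insert, mem_singleton, phase_iff hs] at hτ ⊢
      have : ((l.1 : ℕ) * s ≤ τ ∧ τ < l.1 * s + s) ↔
          ((l.1 : ℕ) * s ≤ τ + 1 ∧ τ + 1 < l.1 * s + s) := by omega
      simp only [this]
    · intro h
      simp only [mem_insert, mem_singleton, phase_iff hs] at h ⊢
      rw [if_neg (by omega), if_neg (by omega)]

lemma cross_diff (hs : 0 < s) (l l' : Ln s m) (hd : l.1 < l'.1) :
    Cross 3 (2 * ((m + 2) * s) - 1) key (Sum.inr l : Pt s m ⊕ Ln s m) (Sum.inr l') := by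
  have h1 := dir_bound (s := s) l.1
  have h2 := dir_bound (s := s) l'.1
  have hd' : (l.1 : ℕ) < l'.1 := hd
  have h3 : (l.1 : ℕ) * s + s ≤ l'.1 * s := by
    have : ((l.1 : ℕ) + 1) * s ≤ l'.1 * s := Nat.mul_le_mul_right _ hd'
    rwa [Nat.succ_mul] at this
  have hdiv : ∀ (x : ℕ) τ, τ / s < x ↔ τ < x * s := fun x τ => Nat.div_lt_iff_lt_mul hs
  have hdiv' : ∀ (x : ℕ) τ, x ≤ τ / s ↔ x * s ≤ τ := fun x τ => Nat.le_div_iff_mul_le hs
  refine few_mk (fun b τ => (τ / s < l'.1 ∧ (b = true → (l.1 : ℕ) ≤ τ / s)))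
    (fun b τ hτ => diff_key hs l l' hd b τ hτ)
    {(l'.1 : ℕ) * s, (m + 2) * s + l.1 * s, (m + 2) * s + (l'.1 : ℕ) * s} card_le_three
    ?_ ?_ ?_ ?_ ?_
  · intro τ _ hτ
    simp only [mem_insert, mem_singleton, hdiv, hdiv'] at hτ ⊢
    simp
    omega
  · intro τ _ hτ
    simp only [mem_insert, mem_singleton, hdiv, hdiv'] at hτ ⊢
    simp
    omega
  · intro h
    simp only [mem_insert, mem_singleton, hdiv, hdiv', Bool.false_eq_true, false_imp_iff,
      and_true, true_imp_iff] at h ⊢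
    omega
  · refine ⟨false, 0, by omega, ?_⟩
    simp only [hdiv, hdiv', Bool.false_eq_true, false_imp_iff, and_true]
    omega
  · refine ⟨false, l'.1 * s, by omega, ?_⟩
    simp only [hdiv, hdiv']
    simp

lemma touch_inc (hs : 0 < s) (v : Pt s m) (l : Ln s m)
    (hinc : ∀ e, e ≠ l.1 → (v e : ℕ) = car l 0 e) :
    Touch (2 * ((m + 2) * s) - 1) key (Sum.inl v) (Sum.inr l) := by
  have hd := dir_bound (s := s) l.1
  have hv := (v l.1).2
  refine ⟨(m + 2) * s + (l.1 * s + v l.1), by omega, by omega, ?_, ?_⟩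
  · rw [key_hi (by omega), Nat.add_sub_cancel_left]
    have := inc_key hs v l hinc true (l.1 * s + v l.1) (by omega)
    rw [if_pos ⟨rfl, rfl⟩] at this
    exact this
  · intro t ht hne
    rcases lt_or_ge t ((m + 2) * s) with h | h
    · rw [key_lo h]
      have := inc_key hs v l hinc false t h
      rw [if_neg (by simp)] at this
      exact this
    · rw [key_hi h]
      have := inc_key hs v l hinc true (t - (m + 2) * s) (by omega)
      rw [if_neg (by rintro ⟨-, h2⟩; omega)] at this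
      exact this

lemma cross_pp (hs : 0 < s) (u v : Pt s m) (h : u ≠ v) :
    Cross 3 (2 * ((m + 2) * s) - 1) key (Sum.inl u : Pt s m ⊕ Ln s m) (Sum.inl v) ∨
    Cross 3 (2 * ((m + 2) * s) - 1) key (Sum.inl v : Pt s m ⊕ Ln s m) (Sum.inl u) := by
  classical
  have hD : (univ.filter fun e => u e ≠ v e).Nonempty := by
    obtain ⟨e, he⟩ := Function.ne_iff.1 h
    exact ⟨e, by simpa using he⟩
  obtain ⟨X, hX, hmax⟩ := exists_max_image (univ.filter fun e => u e ≠ v e) id hD
  obtain ⟨N, hN, hmin⟩ := exists_min_image (univ.filter fun e => u e ≠ v e) id hD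
  have hX' := (mem_filter.1 hX).2
  have hN' := (mem_filter.1 hN).2
  have hXv : (u X : ℕ) ≠ v X := fun h => hX' (Fin.ext h)
  have hNv : (u N : ℕ) ≠ v N := fun h => hN' (Fin.ext h)
  have hXmax : ∀ e, X < e → u e = v e := by
    intro e he
    by_contra hne
    have h4 := hmax e (by simpa using hne)
    simp only [id] at h4
    exact absurd h4 (not_le.2 he)
  have hNmin : ∀ e, e < N → u e = v e := by
    intro e he
    by_contra hne
    have h4 := hmin e (by simpa using hne)
    simp only [id] at h4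
    exact absurd h4 (not_le.2 he)
  have hNX : N ≤ X := hmin X hX
  rcases hNX.lt_or_eq with h1 | h1
  · exact Or.inl (cross_pp_two hs u v N X h1 hXv hNv hXmax hNmin)
  · subst h1
    have heq : ∀ e, e ≠ N → u e = v e := by
      intro e he
      rcases lt_or_gt_of_ne he with h2 | h2
      · exact hNmin e h2
      · exact hXmax e h2
    rcases lt_or_gt_of_ne hNv with h2 | h2
    · exact Or.inl (cross_pp_one hs u v N h2 heq)
    · exact Or.inr (cross_pp_one hs v u N h2 (fun e he => (heq e he).symm))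

/-- all pairs -/
lemma all_pairs (hs : 0 < s) (i j : Pt s m ⊕ Ln s m) (hij : i ≠ j) :
    Cross 3 (2 * ((m + 2) * s) - 1) key i j ∨ Cross 3 (2 * ((m + 2) * s) - 1) key j i ∨
      Touch (2 * ((m + 2) * s) - 1) key i j ∨ Touch (2 * ((m + 2) * s) - 1) key j i := by
  have hpl : ∀ (v : Pt s m) (l : Ln s m), Cross 3 (2 * ((m + 2) * s) - 1) key
      (Sum.inl v : Pt s m ⊕ Ln s m) (Sum.inr l) ∨
      Touch (2 * ((m + 2) * s) - 1) key (Sum.inl v : Pt s m ⊕ Ln s m) (Sum.inr l) := by
    intro v l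
    by_cases h : ∃ e, e ≠ l.1 ∧ (v e : ℕ) ≠ car l 0 e
    · exact Or.inl (cross_pl hs v l h)
    · push Not at h
      exact Or.inr (touch_inc hs v l h)
  rcases i with u | l <;> rcases j with v | l'
  · have : u ≠ v := fun h => hij (by rw [h])
    rcases cross_pp hs u v this with h | h
    · exact Or.inl h
    · exact Or.inr (Or.inl h)
  · rcases hpl u l' with h | h
    · exact Or.inl h
    · exact Or.inr (Or.inr (Or.inl h))
  · rcases hpl v l with h | h
    · exact Or.inr (Or.inl h)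
    · exact Or.inr (Or.inr (Or.inr h))
  · have hne : l ≠ l' := fun h => hij (by rw [h])
    rcases lt_trichotomy l.1 l'.1 with h | h | h
    · exact Or.inl (cross_diff hs l l' h)
    · exact Or.inl (cross_same hs l l' h hne)
    · exact Or.inr (Or.inl (cross_diff hs l' l h))

lemma no_three_key (hs : 0 < s) (t : ℕ) (ht : t ≤ 2 * ((m + 2) * s) - 1)
    (i j l : Pt s m ⊕ Ln s m) (hij : i ≠ j) (hjl : j ≠ l) (hil : i ≠ l) :
    ¬ (key t i = key t j ∧ key t j = key t l) := by
  rintro ⟨e1, e2⟩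
  have hpp : ∀ u v : Pt s m, u ≠ v →
      key t (Sum.inl u : Pt s m ⊕ Ln s m) ≠ key t (Sum.inl v) := by
    intro u v h
    rcases cross_pp hs u v h with h | h
    · exact h.1 t ht
    · exact (h.1 t ht).symm
  have hll : ∀ l l' : Ln s m, l ≠ l' →
      key t (Sum.inr l : Pt s m ⊕ Ln s m) ≠ key t (Sum.inr l') := by
    intro l l' hne
    rcases lt_trichotomy l.1 l'.1 with h | h | h
    · exact (cross_diff hs l l' h).1 t ht
    · exact (cross_same hs l l' h hne).1 t ht
    · exact ((cross_diff hs l' l h).1 t ht).symm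
  rcases i with u | a <;> rcases j with v | b <;> rcases l with w | c
  · exact hpp u v (fun h => hij (by rw [h])) e1
  · exact hpp u v (fun h => hij (by rw [h])) e1
  · exact hpp u w (fun h => hil (by rw [h])) (e1.trans e2)
  · exact hll b c (fun h => hjl (by rw [h])) e2
  · exact hpp v w (fun h => hjl (by rw [h])) e2
  · exact hll a c (fun h => hil (by rw [h])) (e1.trans e2)
  · exact hll a b (fun h => hij (by rw [h])) e1
  · exact hll a b (fun h => hij (by rw [h])) e1

/-- the family of curves of the grid -/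
theorem curves (hs : 0 < s) :
    ∃ f : Pt s m ⊕ Ln s m → ℝ → ℝ, (∀ i, Continuous (f i)) ∧
      (∀ i j, i ≠ j → {x | f i x = f j x}.Finite) ∧
      (∀ i j l, i ≠ j → j ≠ l → i ≠ l → ∀ x, ¬ (f i x = f j x ∧ f j x = f l x)) ∧
      (∀ i j, i ≠ j → {x | f i x = f j x}.ncard ≤ 3) ∧
      (∀ i j, i ≠ j → ∃ x, f i x = f j x) ∧
      (∀ (v : Pt s m) (l : Ln s m), (∀ e, e ≠ l.1 → (v e : ℕ) = car l 0 e) →
        ∃ x₀, (∀ x, f (Sum.inl v) x = f (Sum.inr l) x ↔ x = x₀) ∧
          ∀ x, f (Sum.inl v) x ≤ f (Sum.inr l) x) := by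
  classical
  obtain ⟨N, hN⟩ : ∃ N, ∀ t ≤ 2 * ((m + 2) * s) - 1, ∀ i : Pt s m ⊕ Ln s m, key t i < N := by
    refine ⟨∑ t ∈ range (2 * ((m + 2) * s)), ∑ i : Pt s m ⊕ Ln s m, (key t i + 1), ?_⟩
    intro t ht i
    have hpos : 0 < (m + 2) * s := by positivity
    have h1 : key t i + 1 ≤ ∑ i : Pt s m ⊕ Ln s m, (key t i + 1) :=
      single_le_sum (f := fun i => key t i + 1) (fun _ _ => Nat.zero_le _) (mem_univ i)
    have h2 : ∑ i : Pt s m ⊕ Ln s m, (key t i + 1) ≤
        ∑ t ∈ range (2 * ((m + 2) * s)), ∑ i : Pt s m ⊕ Ln s m, (key t i + 1) :=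
      single_le_sum (f := fun t => ∑ i : Pt s m ⊕ Ln s m, (key t i + 1))
        (fun _ _ => Nat.zero_le _) (mem_range.2 (by omega))
    omega
  obtain ⟨f, h1, h2, h3, h4, h5, h6⟩ := realise (k := 3) (by norm_num) hN
    (fun t ht i j l => no_three_key hs t ht i j l) (fun i j h => all_pairs hs i j h)
  exact ⟨f, h1, h2, h3, h4, h5, fun v l h => h6 _ _ (touch_inc hs v l h)⟩

end

end Q137.Tang
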